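import Pool.Agent.N659.HB.Stm10

/-!
# The transform of the Gaussian law (project SN, part GF)
-/

set_option autoImplicit false

namespace Pool.Agent.N878.SN

open Pool.Agent.N659.HB
open MeasureTheory ProbabilityTheory Complex

lemma gs_eq2 (s : ℝ) : gs s = gaussianReal 0 (Real.toNNReal (s ^ 2)) := by
  have : (⟨s ^ 2, sq_nonneg s⟩ : NNReal) = Real.toNNReal (s ^ 2) := by
    apply NNReal.eq
    rw [Real.coe_toNNReal _ (sq_nonneg s)]
    rfl
  rw [← this]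
  rfl

/-- the Gaussian factor -/
noncomputable def ga (s x : ℝ) : ℝ := Real.exp (-(s ^ 2 / 2) * x ^ 2)

lemma hsr {ζ : ℂ} (t : ℝ) : (I * (ζ - t)).re = -ζ.im := by simp

lemma inner_int {ζ : ℂ} (hζ : 0 < ζ.im) (t : ℝ) :
    1 / ((t : ℂ) - ζ) = I * ∫ x in Set.Ioi (0 : ℝ), cexp (I * (ζ - t) * x) := by
  have hre : (I * (ζ - t)).re < 0 := by rw [hsr]; linarith
  have hne : (t : ℂ) - ζ ≠ 0 := by
    intro h
    have := congrArg Complex.im h
    simp at this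
    linarith
  have hne' : ζ - (t : ℂ) ≠ 0 := by
    intro h
    exact hne (by rw [← neg_sub, h, neg_zero])
  rw [integral_exp_mul_complex_Ioi hre]
  simp only [ofReal_zero, mul_zero, Complex.exp_zero]
  field_simp
  ring

lemma char (s : ℝ) (ζ : ℂ) (x : ℝ) :
    ∫ t : ℝ, cexp (I * (ζ - t) * x) ∂(gs s) = cexp (I * ζ * x) * (ga s x : ℂ) := by
  have e : ∀ t : ℝ, cexp (I * (ζ - t) * x) = cexp (I * ζ * x) * cexp (((-x : ℝ) : ℂ) * t * I) := by
    intro t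
    rw [← Complex.exp_add]
    congr 1
    push_cast
    ring
  simp_rw [e]
  rw [integral_const_mul, ← charFun_apply_real, gs_eq2, charFun_gaussianReal]
  congr 1
  rw [ga, Complex.ofReal_exp]
  congr 1
  rw [Real.coe_toNNReal _ (sq_nonneg s)]
  push_cast
  ring

lemma formula (s : ℝ) {ζ : ℂ} (hζ : 0 < ζ.im) :
    hm (gs s) ζ = I * ∫ x in Set.Ioi (0 : ℝ), cexp (I * ζ * x) * (ga s x : ℂ) := by
  have h1 : hm (gs s) ζ =
      ∫ t : ℝ, (I * ∫ x in Set.Ioi (0 : ℝ), cexp (I * (ζ - t) * x)) ∂(gs s) := by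
    unfold hm
    exact integral_congr_ae (Filter.Eventually.of_forall fun t => inner_int hζ t)
  rw [h1, integral_const_mul]
  congr 1
  rw [integral_integral_swap]
  · exact integral_congr_ae (Filter.Eventually.of_forall fun x => char s ζ x)
  · have hE : Integrable (fun x : ℝ => Real.exp (-ζ.im * x)) (volume.restrict (Set.Ioi 0)) :=
      integrableOn_exp_mul_Ioi (by linarith) 0
    have hb : Integrable (fun p : ℝ × ℝ => (1 : ℝ) * Real.exp (-ζ.im * p.2))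
        ((gs s).prod (volume.restrict (Set.Ioi 0))) :=
      (integrable_const (1 : ℝ)).mul_prod hE
    refine hb.mono' ?_ ?_
    · apply Continuous.aestronglyMeasurable
      simp only [Function.uncurry_def]
      fun_prop
    · refine Filter.Eventually.of_forall fun p => ?_
      rw [Function.uncurry_def, Complex.norm_exp, one_mul]
      apply le_of_eq
      congr 1
      rw [Complex.re_mul_ofReal, hsr]

lemma norm_exp_le {ζ : ℂ} (hζ : 0 < ζ.im) {x : ℝ} (hx : 0 < x) : ‖cexp (I * ζ * x)‖ ≤ 1 := by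
  rw [Complex.norm_exp, Real.exp_le_one_iff, Complex.re_mul_ofReal]
  have : (I * ζ).re = -ζ.im := by simp
  rw [this]
  nlinarith

lemma ga_pos (s x : ℝ) : 0 < ga s x := Real.exp_pos _

lemma ga_int {s : ℝ} (hs : 0 < s) : Integrable (ga s) := integrable_exp_neg_mul_sq (by positivity)

lemma xga_int {s : ℝ} (hs : 0 < s) : Integrable (fun x => x * ga s x) :=
  integrable_mul_exp_neg_mul_sq (by positivity)

lemma exp_sub_le {ζ ζ' : ℂ} (hζ : 0 < ζ.im) (hζ' : 0 < ζ'.im) {x : ℝ} (hx : 0 < x) :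
    ‖cexp (I * ζ * x) - cexp (I * ζ' * x)‖ ≤ x * ‖ζ - ζ'‖ := by
  have hconv : Convex ℝ {w : ℂ | 0 < w.im} := convex_halfSpace_im_gt 0
  have hd : ∀ w ∈ {w : ℂ | 0 < w.im}, HasDerivWithinAt (fun w : ℂ => cexp (I * w * x))
      (cexp (I * w * x) * (I * x)) {w : ℂ | 0 < w.im} w := by
    intro w _
    have h1 : HasDerivAt (fun w : ℂ => I * w * x) (I * x) w := by
      have := ((hasDerivAt_id w).const_mul I).mul_const (x : ℂ)
      simpa using this
    exact h1.cexp.hasDerivWithinAt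
  have hb : ∀ w ∈ {w : ℂ | 0 < w.im}, ‖cexp (I * w * x) * (I * x)‖ ≤ x := by
    intro w hw
    rw [norm_mul, norm_mul, Complex.norm_I, one_mul, Complex.norm_real, Real.norm_eq_abs,
      abs_of_pos hx]
    exact mul_le_of_le_one_left hx.le (norm_exp_le hw hx)
  exact hconv.norm_image_sub_le_of_norm_hasDerivWithin_le hd hb hζ' hζ

lemma int_exp {s : ℝ} (hs : 0 < s) {ζ : ℂ} (hζ : 0 < ζ.im) :
    Integrable (fun x : ℝ => cexp (I * ζ * x) * (ga s x : ℂ)) (volume.restrict (Set.Ioi 0)) := by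
  refine (ga_int hs).integrableOn.integrable.mono' ?_ ?_
  · apply Continuous.aestronglyMeasurable
    unfold ga
    fun_prop
  · refine (ae_restrict_iff' measurableSet_Ioi).2 (Filter.Eventually.of_forall fun x hx => ?_)
    rw [norm_mul, Complex.norm_real, Real.norm_eq_abs, abs_of_pos (ga_pos s x)]
    exact mul_le_of_le_one_left (ga_pos s x).le (norm_exp_le hζ hx)

lemma hm_le {s : ℝ} (hs : 0 < s) {ζ : ℂ} (hζ : 0 < ζ.im) :
    ‖hm (gs s) ζ‖ ≤ ∫ x in Set.Ioi (0 : ℝ), ga s x := by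
  rw [formula s hζ, norm_mul, Complex.norm_I, one_mul]
  refine norm_integral_le_of_norm_le (ga_int hs).integrableOn ?_
  refine (ae_restrict_iff' measurableSet_Ioi).2 (Filter.Eventually.of_forall fun x hx => ?_)
  rw [norm_mul, Complex.norm_real, Real.norm_eq_abs, abs_of_pos (ga_pos s x)]
  exact mul_le_of_le_one_left (ga_pos s x).le (norm_exp_le hζ hx)

lemma hm_sub {s : ℝ} (hs : 0 < s) {ζ ζ' : ℂ} (hζ : 0 < ζ.im) (hζ' : 0 < ζ'.im) :
    ‖hm (gs s) ζ - hm (gs s) ζ'‖ ≤ (∫ x in Set.Ioi (0 : ℝ), x * ga s x) * ‖ζ - ζ'‖ := by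
  rw [formula s hζ, formula s hζ', ← mul_sub, norm_mul, Complex.norm_I, one_mul,
    ← integral_sub (int_exp hs hζ) (int_exp hs hζ'), ← integral_mul_const]
  refine norm_integral_le_of_norm_le ((xga_int hs).integrableOn.mul_const _) ?_
  refine (ae_restrict_iff' measurableSet_Ioi).2 (Filter.Eventually.of_forall fun x hx => ?_)
  rw [← sub_mul, norm_mul, Complex.norm_real, Real.norm_eq_abs, abs_of_pos (ga_pos s x)]
  calc ‖cexp (I * ζ * x) - cexp (I * ζ' * x)‖ * ga s x ≤ (x * ‖ζ - ζ'‖) * ga s x :=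
        mul_le_mul_of_nonneg_right (exp_sub_le hζ hζ' hx) (ga_pos s x).le
    _ = x * ga s x * ‖ζ - ζ'‖ := by ring

lemma norm_ge {ζ : ℂ} (t : ℝ) (hζ : 0 < ζ.im) : ζ.im ≤ ‖(t : ℂ) - ζ‖ := by
  have h1 := Complex.abs_im_le_norm ((t : ℂ) - ζ)
  have h2 : ((t : ℂ) - ζ).im = -ζ.im := by simp
  rw [h2, abs_neg, abs_of_pos hζ] at h1
  exact h1

lemma int_inv (s : ℝ) {ζ : ℂ} (hζ : 0 < ζ.im) :
    Integrable (fun t : ℝ => 1 / ((t : ℂ) - ζ)) (gs s) := by
  refine (integrable_const (1 / ζ.im)).mono' ?_ ?_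
  · apply Continuous.aestronglyMeasurable
    refine continuous_const.div (by fun_prop) fun t => ?_
    exact norm_pos_iff.1 (hζ.trans_le (norm_ge t hζ))
  · refine Filter.Eventually.of_forall fun t => ?_
    rw [norm_div, norm_one]
    exact one_div_le_one_div_of_le hζ (norm_ge t hζ)

lemma sq_le {s C : ℝ} {ζ : ℂ} (hζ : 0 < ζ.im)
    (h : ∀ ζ ζ' : ℂ, 0 < ζ.im → 0 < ζ'.im → ‖hm (gs s) ζ - hm (gs s) ζ'‖ ≤ C * ‖ζ - ζ'‖) :
    ‖∫ t, 1 / ((t : ℂ) - ζ) ^ 2 ∂(gs s)‖ ≤ C := by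
  refine le_of_forall_pos_le_add fun δ hδ => ?_
  obtain ⟨e, he⟩ : ∃ e : ℝ, e = δ * ζ.im ^ 3 := ⟨_, rfl⟩
  have he0 : 0 < e := by rw [he]; positivity
  obtain ⟨ζ', hζ'⟩ : ∃ ζ' : ℂ, ζ' = ζ + I * e := ⟨_, rfl⟩
  have him : ζ'.im = ζ.im + e := by rw [hζ']; simp
  have hζ'0 : 0 < ζ'.im := by rw [him]; linarith
  have hd : ζ' - ζ = I * e := by rw [hζ']; ring
  have hdn : ‖ζ' - ζ‖ = e := by
    rw [hd, norm_mul, Complex.norm_I, one_mul, Complex.norm_real, Real.norm_eq_abs, abs_of_pos he0]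
  have hd0 : ζ' - ζ ≠ 0 := by
    rw [← norm_pos_iff, hdn]
    exact he0
  have hn : ∀ t : ℝ, (t : ℂ) - ζ ≠ 0 := fun t => norm_pos_iff.1 (hζ.trans_le (norm_ge t hζ))
  have hn' : ∀ t : ℝ, (t : ℂ) - ζ' ≠ 0 := fun t => norm_pos_iff.1 (hζ'0.trans_le (norm_ge t hζ'0))
  -- the difference quotient
  have hq : (hm (gs s) ζ' - hm (gs s) ζ) / (ζ' - ζ) =
      ∫ t, (1 / ((t : ℂ) - ζ') - 1 / ((t : ℂ) - ζ)) / (ζ' - ζ) ∂(gs s) := by
    rw [integral_div, integral_sub (int_inv s hζ'0) (int_inv s hζ)]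
    rfl
  have hqn : ‖(hm (gs s) ζ' - hm (gs s) ζ) / (ζ' - ζ)‖ ≤ C := by
    rw [norm_div, div_le_iff₀ (by rw [hdn]; exact he0)]
    exact h ζ' ζ hζ'0 hζ
  have hsqi : Integrable (fun t : ℝ => 1 / ((t : ℂ) - ζ) ^ 2) (gs s) := by
    refine (integrable_const (1 / ζ.im ^ 2)).mono' ?_ ?_
    · apply Continuous.aestronglyMeasurable
      exact continuous_const.div (by fun_prop) fun t => pow_ne_zero 2 (hn t)
    · refine Filter.Eventually.of_forall fun t => ?_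
      rw [norm_div, norm_one, norm_pow]
      exact one_div_le_one_div_of_le (by positivity)
        (pow_le_pow_left₀ hζ.le (norm_ge t hζ) 2)
  have hqi : Integrable (fun t : ℝ => (1 / ((t : ℂ) - ζ') - 1 / ((t : ℂ) - ζ)) / (ζ' - ζ)) (gs s) :=
    ((int_inv s hζ'0).sub (int_inv s hζ)).div_const _
  have hdiff : ‖(∫ t, 1 / ((t : ℂ) - ζ) ^ 2 ∂(gs s)) -
      (hm (gs s) ζ' - hm (gs s) ζ) / (ζ' - ζ)‖ ≤ δ := by
    rw [hq, ← integral_sub hsqi hqi]
    refine (norm_integral_le_of_norm_le (integrable_const δ)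
      (Filter.Eventually.of_forall fun t => ?_)).trans ?_
    · have e1 : 1 / ((t : ℂ) - ζ) ^ 2 - (1 / ((t : ℂ) - ζ') - 1 / ((t : ℂ) - ζ)) / (ζ' - ζ) =
          -(ζ' - ζ) / (((t : ℂ) - ζ) ^ 2 * ((t : ℂ) - ζ')) := by
        have a1 := hn t
        have a2 := hn' t
        field_simp
        ring
      rw [e1, norm_div, norm_neg, hdn, norm_mul, norm_pow, div_le_iff₀]
      · have b1 := norm_ge t hζ
        have b2 : ζ.im ≤ ‖(t : ℂ) - ζ'‖ := by
          have := norm_ge t hζ'0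
          linarith
        have b3 : ζ.im ^ 2 ≤ ‖(t : ℂ) - ζ‖ ^ 2 := pow_le_pow_left₀ hζ.le b1 2
        have b4 : ζ.im ^ 3 ≤ ‖(t : ℂ) - ζ‖ ^ 2 * ‖(t : ℂ) - ζ'‖ := by
          calc ζ.im ^ 3 = ζ.im ^ 2 * ζ.im := by ring
            _ ≤ _ := mul_le_mul b3 b2 hζ.le (by positivity)
        rw [he]
        exact mul_le_mul_of_nonneg_left b4 hδ.le
      · have := norm_pos_iff.2 (hn t)
        have := norm_pos_iff.2 (hn' t)
        positivity
    · simp
  have := norm_sub_norm_le (∫ t, 1 / ((t : ℂ) - ζ) ^ 2 ∂(gs s))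
    ((hm (gs s) ζ' - hm (gs s) ζ) / (ζ' - ζ))
  linarith

theorem main : S_GF := by
  intro s hs
  have hI0 : 0 ≤ ∫ x in Set.Ioi (0 : ℝ), ga s x :=
    setIntegral_nonneg measurableSet_Ioi fun x _ => (ga_pos s x).le
  have hI1 : 0 ≤ ∫ x in Set.Ioi (0 : ℝ), x * ga s x :=
    setIntegral_nonneg measurableSet_Ioi fun x hx => mul_nonneg (le_of_lt hx) (ga_pos s x).le
  have hL : ∀ ζ ζ' : ℂ, 0 < ζ.im → 0 < ζ'.im → ‖hm (gs s) ζ - hm (gs s) ζ'‖ ≤
      (1 + (∫ x in Set.Ioi (0 : ℝ), ga s x) + ∫ x in Set.Ioi (0 : ℝ), x * ga s x) * ‖ζ - ζ'‖ := by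
    intro ζ ζ' h1 h2
    refine (hm_sub hs h1 h2).trans (mul_le_mul_of_nonneg_right ?_ (norm_nonneg _))
    linarith
  refine ⟨1 + (∫ x in Set.Ioi (0 : ℝ), ga s x) + ∫ x in Set.Ioi (0 : ℝ), x * ga s x, by linarith,
    fun ζ hζ => ⟨sq_le hζ hL, ?_⟩, hL⟩
  have := hm_le hs hζ
  linarith

end Pool.Agent.N878.SN
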